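import Mathlib

/-!
# Matching of the roots of two monic polynomials with close values

`match_roots`: if `∏ (z - a i)` and `∏ (z - b i)` are within `δ` on the disc of radius `ρ`, then the
unordered tuples `a` and `b` are within `(4 ρ)^m δ^α`.  `match_points`: the same for points of `ℂ^N`
(or of any product), tested with enough linear forms.
-/

open Finset

namespace Pool.Agent.KRFY

/-- division of both polynomials by a linear factor -/
theorem divide_step {n : ℕ} {a b : Fin n → ℂ} {α β : ℂ} {ρ δ ε : ℝ} (hρ : 1 ≤ ρ)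
    (hα : ‖α‖ ≤ ρ - 1) (hb : ∀ i, ‖b i‖ ≤ ρ - 1) (hαβ : ‖α - β‖ ≤ ε)
    (h : ∀ z : ℂ, ‖z‖ ≤ ρ → ‖(z - α) * ∏ i, (z - a i) - (z - β) * ∏ i, (z - b i)‖ ≤ δ) :
    ∀ z : ℂ, ‖z‖ ≤ ρ → ‖∏ i, (z - a i) - ∏ i, (z - b i)‖ ≤ δ + ε * (2 * ρ) ^ n := by
  have hε : 0 ≤ ε := (norm_nonneg _).trans hαβ
  have hfr : ∀ z ∈ frontier (Metric.ball (0 : ℂ) ρ),
      ‖∏ i, (z - a i) - ∏ i, (z - b i)‖ ≤ δ + ε * (2 * ρ) ^ n := by
    intro z hz
    rw [frontier_ball (0 : ℂ) (by linarith), mem_sphere_zero_iff_norm] at hz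
    have h1 : 1 ≤ ‖z - α‖ := by
      have := norm_sub_norm_le z α
      linarith
    have h2 : ‖∏ i, (z - b i)‖ ≤ (2 * ρ) ^ n := by
      rw [norm_prod]
      calc ∏ i, ‖z - b i‖ ≤ ∏ _i : Fin n, (2 * ρ) :=
            prod_le_prod (fun _ _ => norm_nonneg _) fun i _ => by
              have := norm_sub_le z (b i)
              have := hb i
              linarith
        _ = (2 * ρ) ^ n := by simp
    have h3 : (z - α) * (∏ i, (z - a i) - ∏ i, (z - b i)) =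
        ((z - α) * ∏ i, (z - a i) - (z - β) * ∏ i, (z - b i)) + (α - β) * ∏ i, (z - b i) := by
      ring
    have h4 : ‖z - α‖ * ‖∏ i, (z - a i) - ∏ i, (z - b i)‖ ≤ δ + ε * (2 * ρ) ^ n := by
      rw [← norm_mul, h3]
      refine (norm_add_le _ _).trans (add_le_add (h z hz.le) ?_)
      rw [norm_mul]
      exact mul_le_mul hαβ h2 (norm_nonneg _) hε
    calc ‖∏ i, (z - a i) - ∏ i, (z - b i)‖
        = 1 * ‖∏ i, (z - a i) - ∏ i, (z - b i)‖ := (one_mul _).symm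
      _ ≤ ‖z - α‖ * ‖∏ i, (z - a i) - ∏ i, (z - b i)‖ :=
          mul_le_mul_of_nonneg_right h1 (norm_nonneg _)
      _ ≤ _ := h4
  intro z hz
  have hd : DiffContOnCl ℂ (fun z : ℂ => ∏ i, (z - a i) - ∏ i, (z - b i))
      (Metric.ball (0 : ℂ) ρ) := by
    apply Differentiable.diffContOnCl
    fun_prop
  refine Complex.norm_le_of_forall_mem_frontier_norm_le (U := Metric.ball (0 : ℂ) ρ)
    Metric.isBounded_ball hd hfr ?_
  rw [closure_ball (0 : ℂ) (by linarith)]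
  simpa using hz

/-- one root is close to a root of the other polynomial -/
theorem exists_near {n : ℕ} {a : Fin (n + 1) → ℂ} {β : ℂ} {δ : ℝ} (hδ : 0 ≤ δ)
    (h : ‖∏ i, (β - a i)‖ ≤ δ) : ∃ i, ‖a i - β‖ ≤ δ ^ ((1 : ℝ) / (n + 1)) := by
  by_contra! hc
  have h1 : δ < ∏ i, ‖β - a i‖ := by
    calc δ = (δ ^ ((1 : ℝ) / (n + 1))) ^ (n + 1) := by
          rw [← Real.rpow_natCast, ← Real.rpow_mul hδ]
          push_cast
          rw [one_div, inv_mul_cancel₀ (by positivity), Real.rpow_one]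
      _ = ∏ _i : Fin (n + 1), δ ^ ((1 : ℝ) / (n + 1)) := by simp
      _ < ∏ i, ‖β - a i‖ := by
          rcases hδ.eq_or_lt with rfl | hδ'
          · have : (0 : ℝ) ^ ((1 : ℝ) / (n + 1)) = 0 := Real.zero_rpow (by positivity)
            rw [this]
            simp only [prod_const, card_univ, Fintype.card_fin]
            rw [zero_pow (by omega)]
            refine prod_pos fun i _ => ?_
            have := hc i
            rw [‹(0 : ℝ) ^ ((1 : ℝ) / (n + 1)) = 0›] at this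
            rwa [norm_sub_rev] at this
          · refine prod_lt_prod_of_nonempty (fun i _ => by positivity) (fun i _ => ?_)
              univ_nonempty
            have := hc i
            rwa [norm_sub_rev] at this
  rw [norm_prod] at h
  linarith

/-- The roots of two monic polynomials with close values can be matched. -/
theorem match_roots (D : ℕ) : ∃ (m : ℕ) (α : ℝ), 0 < α ∧ α ≤ 1 ∧
    ∀ (ρ δ : ℝ) (a b : Fin D → ℂ), 1 ≤ ρ → 0 ≤ δ → δ ≤ 1 → (∀ i, ‖a i‖ ≤ ρ - 1) →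
      (∀ i, ‖b i‖ ≤ ρ - 1) →
      (∀ z : ℂ, ‖z‖ ≤ ρ → ‖∏ i, (z - a i) - ∏ i, (z - b i)‖ ≤ δ) →
      ∃ σ : Equiv.Perm (Fin D), ∀ i, ‖a (σ i) - b i‖ ≤ (4 * ρ) ^ m * δ ^ α := by
  induction D with
  | zero => exact ⟨0, 1, one_pos, le_rfl, fun ρ δ a b _ _ _ _ _ _ => ⟨1, fun i => i.elim0⟩⟩
  | succ n ih =>
    obtain ⟨m, α, hα, hα1, ih⟩ := ih
    refine ⟨m + n + 3, α / (n + 1), by positivity, ?_, ?_⟩
    · rw [div_le_one (by positivity)]
      have : (0 : ℝ) ≤ n := Nat.cast_nonneg n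
      linarith
    intro ρ δ a b hρ hδ hδ1 ha hb h
    have hρ4 : 1 ≤ 4 * ρ := by linarith
    -- a root of the first polynomial near the root `b 0`
    obtain ⟨i₀, hi₀⟩ : ∃ i, ‖a i - b 0‖ ≤ δ ^ ((1 : ℝ) / (n + 1)) := by
      refine exists_near hδ ?_
      have h1 := h (b 0) (by have := hb 0; linarith)
      have h2 : ∏ i, (b 0 - b i) = 0 := prod_eq_zero (mem_univ 0) (by simp)
      rwa [h2, sub_zero] at h1
    set τ : Equiv.Perm (Fin (n + 1)) := Equiv.swap 0 i₀ with hτ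
    set ε : ℝ := δ ^ ((1 : ℝ) / (n + 1)) with hε
    have hε0 : 0 ≤ ε := by positivity
    have hε1 : ε ≤ 1 := Real.rpow_le_one hδ hδ1 (by positivity)
    have hδε : δ ≤ ε := by
      calc δ = δ ^ (1 : ℝ) := (Real.rpow_one δ).symm
        _ ≤ δ ^ ((1 : ℝ) / (n + 1)) := by
          rcases hδ.eq_or_lt with rfl | hδ'
          · rw [Real.rpow_one]; positivity
          · refine Real.rpow_le_rpow_of_exponent_ge hδ' hδ1 ?_
            rw [div_le_one (by positivity)]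
            have : (0 : ℝ) ≤ n := Nat.cast_nonneg n
            linarith
    have hτ0 : τ 0 = i₀ := Equiv.swap_apply_left 0 i₀
    -- the quotients
    have hq : ∀ z : ℂ, ‖z‖ ≤ ρ →
        ‖∏ i : Fin n, (z - a (τ i.succ)) - ∏ i : Fin n, (z - b i.succ)‖ ≤
          δ + ε * (2 * ρ) ^ n := by
      refine divide_step (α := a i₀) (β := b 0) hρ (ha i₀) (fun i => hb i.succ) hi₀ ?_
      intro z hz
      have h1 := h z hz
      rw [← Equiv.prod_comp τ (fun i => z - a i), Fin.prod_univ_succ, Fin.prod_univ_succ, hτ0] at h1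
      exact h1
    set δ' : ℝ := δ + ε * (2 * ρ) ^ n with hδ'
    have hδ'0 : 0 ≤ δ' := by positivity
    have hδ'le : δ' ≤ (4 * ρ) ^ (n + 1) * ε := by
      have h1 : (1 : ℝ) ≤ (4 * ρ) ^ n := one_le_pow₀ hρ4
      have h2 : (2 * ρ) ^ n ≤ (4 * ρ) ^ n := pow_le_pow_left₀ (by linarith) (by linarith) n
      have h3 : (4 * ρ) ^ (n + 1) = (4 * ρ) ^ n * (4 * ρ) := pow_succ _ _
      rw [hδ', h3]
      nlinarith [mul_le_mul_of_nonneg_left h2 hε0, mul_le_mul_of_nonneg_left h1 hε0,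
        mul_nonneg hε0 (by positivity : (0 : ℝ) ≤ (4 * ρ) ^ n)]
    have hfin : δ' ^ α ≤ (4 * ρ) ^ (n + 1) * δ ^ (α / (n + 1)) := by
      calc δ' ^ α ≤ ((4 * ρ) ^ (n + 1) * ε) ^ α := Real.rpow_le_rpow hδ'0 hδ'le hα.le
        _ = ((4 * ρ) ^ (n + 1)) ^ α * ε ^ α := Real.mul_rpow (by positivity) hε0
        _ ≤ (4 * ρ) ^ (n + 1) * δ ^ (α / (n + 1)) := by
          refine mul_le_mul ?_ ?_ (by positivity) (by positivity)
          · calc ((4 * ρ) ^ (n + 1)) ^ α ≤ ((4 * ρ) ^ (n + 1)) ^ (1 : ℝ) :=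
                Real.rpow_le_rpow_of_exponent_le (one_le_pow₀ hρ4) hα1
              _ = _ := Real.rpow_one _
          · rw [hε, ← Real.rpow_mul hδ]
            exact le_of_eq (by congr 1; ring)
    -- the permutation for the quotients
    obtain ⟨σ, hσ⟩ : ∃ σ : Equiv.Perm (Fin n), ∀ i : Fin n,
        ‖a (τ (σ i).succ) - b i.succ‖ ≤ (4 * ρ) ^ (m + n + 3) * δ ^ (α / (n + 1)) := by
      by_cases h1 : δ' ≤ 1
      · obtain ⟨σ, hσ⟩ := ih ρ δ' (fun i => a (τ i.succ)) (fun i => b i.succ) hρ hδ'0 h1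
          (fun i => ha _) (fun i => hb _) hq
        refine ⟨σ, fun i => (hσ i).trans ?_⟩
        calc (4 * ρ) ^ m * δ' ^ α ≤ (4 * ρ) ^ m * ((4 * ρ) ^ (n + 1) * δ ^ (α / (n + 1))) :=
              mul_le_mul_of_nonneg_left hfin (by positivity)
          _ = (4 * ρ) ^ (m + n + 1) * δ ^ (α / (n + 1)) := by
              rw [← mul_assoc, ← pow_add]; ring_nf
          _ ≤ _ := mul_le_mul_of_nonneg_right (pow_le_pow_right₀ hρ4 (by omega))
              (by positivity)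
      · refine ⟨1, fun i => ?_⟩
        have h2 : ‖a (τ ((1 : Equiv.Perm (Fin n)) i).succ) - b i.succ‖ ≤ 2 * ρ := by
          refine (norm_sub_le _ _).trans ?_
          have := ha (τ ((1 : Equiv.Perm (Fin n)) i).succ)
          have := hb i.succ
          linarith
        have h3 : 1 ≤ δ' ^ α := Real.one_le_rpow (not_le.1 h1).le hα.le
        calc ‖a (τ ((1 : Equiv.Perm (Fin n)) i).succ) - b i.succ‖ ≤ 2 * ρ := h2
          _ ≤ (4 * ρ) * 1 := by linarith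
          _ ≤ (4 * ρ) * ((4 * ρ) ^ (n + 1) * δ ^ (α / (n + 1))) :=
              mul_le_mul_of_nonneg_left (h3.trans hfin) (by positivity)
          _ = (4 * ρ) ^ (n + 2) * δ ^ (α / (n + 1)) := by
              rw [← mul_assoc, ← pow_succ']
          _ ≤ _ := mul_le_mul_of_nonneg_right (pow_le_pow_right₀ hρ4 (by omega))
              (by positivity)
    -- the permutation
    refine ⟨τ * (Equiv.Perm.decomposeFin.symm (0, σ)), fun i => ?_⟩
    refine Fin.cases ?_ (fun i => ?_) i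
    · rw [Equiv.Perm.mul_apply, Equiv.Perm.decomposeFin_symm_apply_zero, hτ0]
      refine hi₀.trans ?_
      have h1 : ε ≤ δ ^ (α / (n + 1)) := by
        rw [hε]
        rcases hδ.eq_or_lt with rfl | hδ'
        · rw [Real.zero_rpow (by positivity), Real.zero_rpow (by positivity)]
        · exact Real.rpow_le_rpow_of_exponent_ge hδ' hδ1
            (div_le_div_of_nonneg_right hα1 (by positivity))
      calc ε ≤ δ ^ (α / (n + 1)) := h1
        _ = 1 * δ ^ (α / (n + 1)) := (one_mul _).symm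
        _ ≤ _ := mul_le_mul_of_nonneg_right (one_le_pow₀ hρ4) (by positivity)
    · rw [Equiv.Perm.mul_apply, Equiv.Perm.decomposeFin_symm_apply_succ, Equiv.swap_self]
      exact hσ i

/-- the linear form `∑ k^j x_j` -/
def vf {N : ℕ} (k : ℕ) (x : Fin N → ℂ) : ℂ := ∑ j : Fin N, (k : ℂ) ^ (j : ℕ) * x j

theorem vf_sub {N : ℕ} (k : ℕ) (x y : Fin N → ℂ) : vf k (x - y) = vf k x - vf k y := by
  simp only [vf, Pi.sub_apply, mul_sub, sum_sub_distrib]

theorem norm_vf_le {N : ℕ} {k K : ℕ} (hk : k ≤ K) (hK : 1 ≤ K) {x : Fin N → ℂ} {ρ : ℝ}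
    (hx : ∀ j, ‖x j‖ ≤ ρ) : ‖vf k x‖ ≤ N * (K : ℝ) ^ N * ρ := by
  have hK' : (1 : ℝ) ≤ K := by exact_mod_cast hK
  have hkK : (k : ℝ) ≤ K := by exact_mod_cast hk
  calc ‖vf k x‖ ≤ ∑ j : Fin N, ‖(k : ℂ) ^ (j : ℕ) * x j‖ := norm_sum_le _ _
    _ ≤ ∑ _j : Fin N, (K : ℝ) ^ N * ρ := by
        refine sum_le_sum fun j _ => ?_
        have hρ : 0 ≤ ρ := (norm_nonneg _).trans (hx j)
        rw [norm_mul, norm_pow, Complex.norm_natCast]
        refine mul_le_mul ?_ (hx j) (norm_nonneg _) (by positivity)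
        exact (pow_le_pow_left₀ (Nat.cast_nonneg k) hkK _).trans
          (pow_le_pow_right₀ hK' j.2.le)
    _ = N * (K : ℝ) ^ N * ρ := by simp [mul_assoc]

/-- Enough linear forms determine a permutation. -/
theorem match_points (D N : ℕ) : ∃ C : ℝ, 0 < C ∧ ∀ (x y : Fin D → Fin N → ℂ) (ε : ℝ), 0 ≤ ε →
    (∀ k < N * D.factorial + 1, ∃ σ : Equiv.Perm (Fin D), ∀ i,
      ‖vf k (x (σ i)) - vf k (y i)‖ ≤ ε) →
    ∃ σ : Equiv.Perm (Fin D), ∀ i j, ‖x (σ i) j - y i j‖ ≤ C * ε := by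
  classical
  set K := N * D.factorial + 1 with hK
  let V : (Fin N → Fin K) → Matrix (Fin N) (Fin N) ℂ :=
    fun g => Matrix.vandermonde fun r => ((g r : ℕ) : ℂ)
  refine ⟨1 + ∑ g : Fin N → Fin K, ∑ j, ∑ r, ‖(V g)⁻¹ j r‖, by positivity, ?_⟩
  intro x y ε hε h
  choose σ hσ using fun k : Fin K => h k k.2
  obtain ⟨τ, -, hτ⟩ := Finset.exists_lt_card_fiber_of_mul_lt_card_of_maps_to
    (s := (univ : Finset (Fin K))) (t := (univ : Finset (Equiv.Perm (Fin D)))) (f := σ) (n := N)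
    (fun _ _ => mem_univ _) (by
      rw [card_univ, card_univ, Fintype.card_perm, Fintype.card_fin, Fintype.card_fin, hK,
        Nat.mul_comm N]
      omega)
  let g : Fin N → Fin K := fun r => (univ.filter fun k => σ k = τ).orderEmbOfCardLe hτ.le r
  have hg : Function.Injective g := fun r r' h =>
    ((univ.filter fun k => σ k = τ).orderEmbOfCardLe hτ.le).injective h
  have hgτ : ∀ r, σ (g r) = τ := fun r =>
    (mem_filter.1 (Finset.orderEmbOfCardLe_mem _ hτ.le r)).2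
  have hdet : IsUnit (V g).det := by
    rw [isUnit_iff_ne_zero]
    refine Matrix.det_vandermonde_ne_zero_iff.2 fun r r' h => hg ?_
    exact Fin.ext (by exact_mod_cast h)
  refine ⟨τ, fun i j => ?_⟩
  set w : Fin N → ℂ := x (τ i) - y i with hw
  have h1 : ∀ r, ‖((V g).mulVec w) r‖ ≤ ε := by
    intro r
    have h2 : ((V g).mulVec w) r = vf (g r) w := by
      simp [V, Matrix.mulVec, dotProduct, vf, Matrix.vandermonde_apply]
    rw [h2, hw, vf_sub]
    have := hσ (g r) i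
    rwa [hgτ r] at this
  have h3 : w = (V g)⁻¹.mulVec ((V g).mulVec w) := by
    rw [Matrix.mulVec_mulVec, Matrix.nonsing_inv_mul _ hdet, Matrix.one_mulVec]
  calc ‖x (τ i) j - y i j‖ = ‖w j‖ := by rw [hw, Pi.sub_apply]
    _ = ‖∑ r, (V g)⁻¹ j r * ((V g).mulVec w) r‖ := by
        conv_lhs => rw [h3]
        rfl
    _ ≤ ∑ r, ‖(V g)⁻¹ j r‖ * ε := by
        refine (norm_sum_le _ _).trans (sum_le_sum fun r _ => ?_)
        rw [norm_mul]
        exact mul_le_mul_of_nonneg_left (h1 r) (norm_nonneg _)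
    _ = (∑ r, ‖(V g)⁻¹ j r‖) * ε := by rw [sum_mul]
    _ ≤ (1 + ∑ g : Fin N → Fin K, ∑ j, ∑ r, ‖(V g)⁻¹ j r‖) * ε := by
        refine mul_le_mul_of_nonneg_right ?_ hε
        have e1 : ∑ r, ‖(V g)⁻¹ j r‖ ≤ ∑ j, ∑ r, ‖(V g)⁻¹ j r‖ :=
          single_le_sum (f := fun j => ∑ r, ‖(V g)⁻¹ j r‖) (fun _ _ => by positivity)
            (mem_univ j)
        have e2 : ∑ j, ∑ r, ‖(V g)⁻¹ j r‖ ≤ ∑ g : Fin N → Fin K, ∑ j, ∑ r, ‖(V g)⁻¹ j r‖ :=
          single_le_sum (f := fun g => ∑ j, ∑ r, ‖(V g)⁻¹ j r‖) (fun _ _ => by positivity)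
            (mem_univ g)
        linarith

/-- Unordered tuples of points of `ℂ^N` whose projections by enough linear forms are the roots of
close polynomials can be matched. -/
theorem match_tuples (D N : ℕ) : ∃ (m : ℕ) (C α : ℝ), 1 ≤ C ∧ 0 < α ∧ α ≤ 1 ∧
    ∀ (ρ δ : ℝ) (x y : Fin D → Fin N → ℂ), 1 ≤ ρ → 0 ≤ δ → δ ≤ 1 → (∀ i j, ‖x i j‖ ≤ ρ) →
      (∀ i j, ‖y i j‖ ≤ ρ) →
      (∀ k < N * D.factorial + 1, ∀ z : ℂ, ‖z‖ ≤ C * ρ →
        ‖∏ i, (z - vf k (x i)) - ∏ i, (z - vf k (y i))‖ ≤ δ) →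
      ∃ σ : Equiv.Perm (Fin D), ∀ i j, ‖x (σ i) j - y i j‖ ≤ C * ρ ^ m * δ ^ α := by
  obtain ⟨m, α, hα, hα1, hm⟩ := match_roots D
  obtain ⟨C, hC, hmp⟩ := match_points D N
  set K := N * D.factorial + 1 with hK
  set B : ℝ := N * (K : ℝ) ^ N + 1 with hB
  have hB1 : 1 ≤ B := by
    rw [hB]
    have : (0 : ℝ) ≤ N * (K : ℝ) ^ N := by positivity
    linarith
  have hB4 : 1 ≤ (4 * B) ^ m := one_le_pow₀ (by linarith)
  refine ⟨m, B + C * (4 * B) ^ m, α, ?_, hα, hα1, ?_⟩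
  · have : 0 ≤ C * (4 * B) ^ m := by positivity
    linarith
  intro ρ δ x y hρ hδ hδ1 hx hy h
  have hbd : ∀ k < K, ∀ w : Fin N → ℂ, (∀ j, ‖w j‖ ≤ ρ) → ‖vf k w‖ ≤ B * ρ - 1 := by
    intro k hk w hw
    refine (norm_vf_le hk.le (by omega) hw).trans ?_
    rw [hB]
    nlinarith
  have h1 : ∀ k < K, ∃ σ : Equiv.Perm (Fin D), ∀ i,
      ‖vf k (x (σ i)) - vf k (y i)‖ ≤ (4 * (B * ρ)) ^ m * δ ^ α := by
    intro k hk
    refine hm (B * ρ) δ (fun i => vf k (x i)) (fun i => vf k (y i)) (by nlinarith) hδ hδ1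
      (fun i => hbd k hk _ (hx i)) (fun i => hbd k hk _ (hy i)) ?_
    intro z hz
    refine h k hk z (hz.trans ?_)
    refine mul_le_mul_of_nonneg_right ?_ (by linarith)
    have : 0 ≤ C * (4 * B) ^ m := by positivity
    linarith
  obtain ⟨σ, hσ⟩ := hmp x y _ (by positivity) h1
  refine ⟨σ, fun i j => (hσ i j).trans ?_⟩
  calc C * ((4 * (B * ρ)) ^ m * δ ^ α) = (C * (4 * B) ^ m) * ρ ^ m * δ ^ α := by
        rw [← mul_assoc 4 B ρ, mul_pow]; ring
    _ ≤ (B + C * (4 * B) ^ m) * ρ ^ m * δ ^ α := by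
        have : 0 ≤ B * (ρ ^ m * δ ^ α) := by positivity
        nlinarith

end Pool.Agent.KRFY
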