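import Pool.Agent.Work.MP_a2bf38_gt.Y.Match

/-!
# Sheets of an unordered tuple of points

`Z s` is a `D`-tuple of points of `ℂ^N` such that `s ↦ ∏ (T - u (Z s i))` is entire for the linear
forms `u = vf k` and all `T`.  Then `Z` is continuous and Hölder continuous as an unordered tuple
(`cont`, `holder`), and off a closed discrete set it is given by `D` holomorphic sections
(`sections`).
-/

set_option autoImplicit false

open Finset Filter Topology Polynomial

namespace Pool.Agent.KRFY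

namespace Sheets

/-- Cauchy estimate -/
theorem lip {F : ℂ → ℂ} (hF : Differentiable ℂ F) {M : ℝ}
    (hM : ∀ s : ℂ, ‖s‖ ≤ 3 → ‖F s‖ ≤ M) {s s' : ℂ} (hs : ‖s‖ ≤ 2) (hs' : ‖s'‖ ≤ 2) :
    ‖F s - F s'‖ ≤ M * ‖s - s'‖ := by
  have h1 : ∀ w ∈ Metric.closedBall (0 : ℂ) 2, ‖deriv F w‖ ≤ M := by
    intro w hw
    have h2 := Complex.norm_deriv_le_of_forall_mem_sphere_norm_le (c := w) (R := 1) (C := M)
      one_pos hF.diffContOnCl fun z hz => by
        refine hM z ?_
        rw [mem_sphere_iff_norm] at hz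
        rw [mem_closedBall_zero_iff] at hw
        calc ‖z‖ = ‖(z - w) + w‖ := by ring_nf
          _ ≤ ‖z - w‖ + ‖w‖ := norm_add_le _ _
          _ ≤ 3 := by linarith
    simpa using h2
  exact (convex_closedBall (0 : ℂ) 2).norm_image_sub_le_of_norm_deriv_le
    (fun x _ => hF x) h1 (mem_closedBall_zero_iff.2 hs') (mem_closedBall_zero_iff.2 hs)

/-- Hölder continuity of unordered tuples -/
theorem holder (D N : ℕ) : ∃ (m : ℕ) (C α : ℝ), 0 < C ∧ 0 < α ∧ α ≤ 1 ∧
    ∀ Z : ℂ → Fin D → Fin N → ℂ,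
      (∀ (k : ℕ) (T : ℂ), Differentiable ℂ fun s => ∏ i, (T - vf k (Z s i))) →
      ∀ ρ : ℝ, 1 ≤ ρ → (∀ s : ℂ, ‖s‖ ≤ 3 → ∀ i j, ‖Z s i j‖ ≤ ρ) →
      ∀ s s' : ℂ, ‖s‖ ≤ 2 → ‖s'‖ ≤ 2 → ∃ σ : Equiv.Perm (Fin D),
        ∀ i j, ‖Z s (σ i) j - Z s' i j‖ ≤ C * ρ ^ m * ‖s - s'‖ ^ α := by
  obtain ⟨m, C, α, hC, hα, hα1, h⟩ := match_tuples D N
  set K := N * D.factorial + 1 with hK
  set A : ℝ := C + N * (K : ℝ) ^ N with hA
  have hA1 : 1 ≤ A := by
    rw [hA]
    have : (0 : ℝ) ≤ N * (K : ℝ) ^ N := by positivity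
    linarith
  have hC0 : 0 < C := by linarith
  refine ⟨m + D + 1, (C + 2) * A ^ D, α, by positivity, hα, hα1, ?_⟩
  intro Z hZ ρ hρ hb s s' hs hs'
  have hM : ∀ k < K, ∀ T : ℂ, ‖T‖ ≤ C * ρ → ∀ w : ℂ, ‖w‖ ≤ 3 →
      ‖∏ i, (T - vf k (Z w i))‖ ≤ (A * ρ) ^ D := by
    intro k hk T hT w hw
    calc ‖∏ i, (T - vf k (Z w i))‖ = ∏ i, ‖T - vf k (Z w i)‖ := norm_prod _ _
      _ ≤ ∏ _i : Fin D, (A * ρ) := by
          refine prod_le_prod (fun _ _ => norm_nonneg _) fun i _ => ?_
          have := norm_vf_le (k := k) (K := K) hk.le (by omega) (hb w hw i)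
          calc ‖T - vf k (Z w i)‖ ≤ ‖T‖ + ‖vf k (Z w i)‖ := norm_sub_le _ _
            _ ≤ C * ρ + N * (K : ℝ) ^ N * ρ := add_le_add hT this
            _ = A * ρ := by rw [hA]; ring
      _ = (A * ρ) ^ D := by simp
  have hAρ : 1 ≤ A * ρ := one_le_mul_of_one_le_of_one_le hA1 hρ
  have hP : (1 : ℝ) ≤ (A * ρ) ^ D := one_le_pow₀ hAρ
  have hρ0 : 0 < ρ := by linarith
  set δ : ℝ := (A * ρ) ^ D * ‖s - s'‖ with hδ
  have hδ0 : 0 ≤ δ := by positivity
  have hδα : δ ^ α ≤ (A * ρ) ^ D * ‖s - s'‖ ^ α := by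
    rw [hδ, Real.mul_rpow (by positivity) (norm_nonneg _)]
    refine mul_le_mul_of_nonneg_right ?_ (by positivity)
    calc ((A * ρ) ^ D) ^ α ≤ ((A * ρ) ^ D) ^ (1 : ℝ) :=
          Real.rpow_le_rpow_of_exponent_le hP hα1
      _ = (A * ρ) ^ D := Real.rpow_one _
  have hx : 0 ≤ ‖s - s'‖ ^ α := by positivity
  have hfin : ∀ {c : ℝ} {e : ℕ}, 0 ≤ c → c ≤ C + 2 → e ≤ m + 1 →
      c * ρ ^ e * δ ^ α ≤ (C + 2) * A ^ D * ρ ^ (m + D + 1) * ‖s - s'‖ ^ α := by
    intro c e hc hc2 he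
    calc c * ρ ^ e * δ ^ α ≤ (C + 2) * ρ ^ (m + 1) * ((A * ρ) ^ D * ‖s - s'‖ ^ α) := by
          refine mul_le_mul (mul_le_mul hc2 (pow_le_pow_right₀ hρ he) (by positivity)
            (by positivity)) hδα (by positivity) (by positivity)
      _ = (C + 2) * A ^ D * ρ ^ (m + D + 1) * ‖s - s'‖ ^ α := by
          rw [mul_pow]; ring
  rcases le_or_gt δ 1 with h1 | h1
  · obtain ⟨σ, hσ⟩ := h ρ δ (Z s) (Z s') hρ hδ0 h1 (fun i j => hb s (by linarith) i j)
      (fun i j => hb s' (by linarith) i j) fun k hk T hT => by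
        have := lip (hZ k T) (hM k hk T hT) hs hs'
        exact this
    exact ⟨σ, fun i j => (hσ i j).trans (hfin hC0.le (by linarith) (by omega))⟩
  · refine ⟨1, fun i j => ?_⟩
    have h2 : 1 ≤ δ ^ α := Real.one_le_rpow h1.le hα.le
    calc ‖Z s ((1 : Equiv.Perm (Fin D)) i) j - Z s' i j‖ ≤ ‖Z s i j‖ + ‖Z s' i j‖ :=
          norm_sub_le _ _
      _ ≤ ρ + ρ := add_le_add (hb s (by linarith) i j) (hb s' (by linarith) i j)
      _ = 2 * ρ ^ 1 * 1 := by ring
      _ ≤ 2 * ρ ^ 1 * δ ^ α := by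
          refine mul_le_mul_of_nonneg_left h2 (by positivity)
      _ ≤ _ := hfin (by norm_num) (by linarith) (by omega)

section

variable {D N : ℕ} {Z : ℂ → Fin D → Fin N → ℂ}

/-- continuity of the unordered tuple -/
theorem cont (hZ : ∀ (k : ℕ) (T : ℂ), Differentiable ℂ fun s => ∏ i, (T - vf k (Z s i)))
    (hB : ∀ R : ℝ, ∃ B : ℝ, ∀ s : ℂ, ‖s‖ ≤ R → ∀ i j, ‖Z s i j‖ ≤ B) (s : ℂ) {ε : ℝ}
    (hε : 0 < ε) :
    ∀ᶠ s' in 𝓝 s, ∃ σ : Equiv.Perm (Fin D), ∀ i j, ‖Z s' (σ i) j - Z s i j‖ ≤ ε := by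
  obtain ⟨m, C, α, hC, hα, hα1, h⟩ := holder D N
  obtain ⟨B, hB⟩ := hB (‖s‖ + 3)
  have hd : Differentiable ℂ (fun w : ℂ => s + w) := by fun_prop
  have h1 := h (fun w => Z (s + w)) (fun k T => (hZ k T).comp hd)
    (max B 1) (le_max_right _ _) (fun w hw i j =>
      (hB _ ((norm_add_le _ _).trans (by linarith)) i j).trans (le_max_left _ _))
  have h2 : Tendsto (fun s' : ℂ => C * (max B 1) ^ m * ‖s' - s‖ ^ α) (𝓝 s) (𝓝 0) := by
    have h3 : Tendsto (fun s' : ℂ => ‖s' - s‖) (𝓝 s) (𝓝 0) := by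
      have : Continuous fun s' : ℂ => ‖s' - s‖ := by fun_prop
      simpa using this.tendsto s
    have h4 := (h3.rpow_const (p := α) (Or.inr hα.le)).const_mul (C * (max B 1) ^ m)
    simpa [Real.zero_rpow hα.ne'] using h4
  filter_upwards [h2.eventually (gt_mem_nhds hε), Metric.ball_mem_nhds s two_pos] with s' h3 h4
  rw [mem_ball_iff_norm] at h4
  obtain ⟨σ, hσ⟩ := h1 (s' - s) 0 h4.le (by simp)
  refine ⟨σ, fun i j => ?_⟩
  have h5 := hσ i j
  simp only [add_sub_cancel, add_zero, sub_zero] at h5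
  exact h5.trans h3.le

end

/-! ### Symmetric functions -/

theorem coeff_diff {n : ℕ} {p : ℂ → ℂ[X]} (hdeg : ∀ s, (p s).degree < n)
    (h : ∀ T, Differentiable ℂ fun s => (p s).eval T) (j : ℕ) :
    Differentiable ℂ fun s => (p s).coeff j := by
  have hinj : Set.InjOn (fun i : ℕ => (i : ℂ)) (Finset.range n : Set ℕ) :=
    Nat.cast_injective.injOn
  have h1 : ∀ s, p s = Lagrange.interpolate (Finset.range n) (fun i : ℕ => (i : ℂ))
      fun i => (p s).eval (i : ℂ) := fun s =>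
    Lagrange.eq_interpolate hinj (by simpa using hdeg s)
  have h2 : (fun s => (p s).coeff j) = fun s => ∑ i ∈ Finset.range n, (p s).eval (i : ℂ) *
      (Lagrange.basis (Finset.range n) (fun i : ℕ => (i : ℂ)) i).coeff j := by
    funext s
    conv_lhs => rw [h1 s]
    rw [Lagrange.interpolate_apply, finsetSum_coeff]
    simp [coeff_C_mul]
  rw [h2]
  exact Differentiable.fun_sum fun i _ => (h _).mul_const _

theorem degree_prod_X {D : ℕ} (v : Fin D → ℂ) : (∏ i, (X - C (v i)) : ℂ[X]).degree = D := by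
  rw [Polynomial.degree_prod]
  simp

theorem esymm_diff {D : ℕ} {V : ℂ → Fin D → ℂ}
    (hV : ∀ T : ℂ, Differentiable ℂ fun s => ∏ i, (T - V s i)) {j : ℕ} (hj : j ≤ D) :
    Differentiable ℂ fun s => MvPolynomial.aeval (V s) (MvPolynomial.esymm (Fin D) ℂ j) := by
  have h1 : ∀ s, MvPolynomial.aeval (V s) (MvPolynomial.esymm (Fin D) ℂ j) =
      (-1) ^ j * (∏ i, (X - C (V s i)) : ℂ[X]).coeff (D - j) := by
    intro s
    rw [MvPolynomial.aeval_esymm_eq_multiset_esymm]
    have h2 := Multiset.prod_X_sub_C_coeff (univ.val.map (V s)) (k := D - j) (by simp)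
    rw [Multiset.map_map] at h2
    have h3 : (Multiset.map ((fun t => X - C t) ∘ V s) univ.val).prod =
        (∏ i, (X - C (V s i)) : ℂ[X]) := rfl
    rw [h3] at h2
    rw [h2]
    have h4 : Multiset.card (univ.val.map (V s)) - (D - j) = j := by
      simp
      omega
    rw [h4, ← mul_assoc, ← mul_pow]
    simp
  simp only [h1]
  refine Differentiable.const_mul (coeff_diff (n := D + 1) (fun s => ?_) (fun T => ?_) _) _
  · rw [degree_prod_X]
    exact_mod_cast Nat.lt_succ_self D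
  · simpa [eval_prod] using hV T

theorem mv_diff {D : ℕ} {e : ℂ → Fin D → ℂ} (he : ∀ i, Differentiable ℂ fun s => e s i)
    (q : MvPolynomial (Fin D) ℂ) : Differentiable ℂ fun s => MvPolynomial.aeval (e s) q := by
  induction q using MvPolynomial.induction_on with
  | C a => simp
  | add p q hp hq =>
    simp only [map_add]
    exact hp.add hq
  | mul_X p i hp =>
    simp only [map_mul, MvPolynomial.aeval_X]
    exact hp.mul (he i)

theorem symm_diff {D : ℕ} {V : ℂ → Fin D → ℂ}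
    (hV : ∀ T : ℂ, Differentiable ℂ fun s => ∏ i, (T - V s i)) {p : MvPolynomial (Fin D) ℂ}
    (hp : p.IsSymmetric) : Differentiable ℂ fun s => MvPolynomial.aeval (V s) p := by
  obtain ⟨q, hq⟩ := (MvPolynomial.esymmAlgHom_fin_bijective ℂ D).2 ⟨p, hp⟩
  have h1 : p = MvPolynomial.aeval (fun i : Fin D => MvPolynomial.esymm (Fin D) ℂ (i + 1)) q := by
    have h3 : ((MvPolynomial.esymmAlgHom (Fin D) ℂ D) q).val = p := congrArg Subtype.val hq
    rw [← h3, MvPolynomial.esymmAlgHom_apply]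
  have h2 : (fun s => MvPolynomial.aeval (V s) p) = fun s => MvPolynomial.aeval
      (fun i : Fin D => MvPolynomial.aeval (V s) (MvPolynomial.esymm (Fin D) ℂ (i + 1))) q := by
    funext s
    rw [h1, ← AlgHom.comp_apply, MvPolynomial.comp_aeval]
  rw [h2]
  exact mv_diff (fun i => esymm_diff hV (by omega)) q

/-- A symmetric polynomial which tests whether there are `d` different values. -/
noncomputable def Fp (D d : ℕ) : MvPolynomial (Fin D) ℂ :=
  ∑ f : Fin d → Fin D, ∏ ab ∈ (univ : Finset (Fin d)).offDiag,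
    (MvPolynomial.X (f ab.1) - MvPolynomial.X (f ab.2))

theorem Fp_symm (D d : ℕ) : (Fp D d).IsSymmetric := by
  intro σ
  unfold Fp
  simp only [map_sum, map_prod, map_sub, MvPolynomial.rename_X]
  exact Fintype.sum_equiv (Equiv.arrowCongr (Equiv.refl _) σ) _ _ fun f => rfl

theorem Fp_aeval {D d : ℕ} (v : Fin D → ℂ) : MvPolynomial.aeval v (Fp D d) =
    ∑ f : Fin d → Fin D, ∏ ab ∈ (univ : Finset (Fin d)).offDiag, (v (f ab.1) - v (f ab.2)) := by
  unfold Fp
  simp [map_sum, map_prod]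

theorem Fp_zero {D d : ℕ} {v : Fin D → ℂ} (h : (univ.image v).card < d) :
    MvPolynomial.aeval v (Fp D d) = 0 := by
  rw [Fp_aeval]
  refine sum_eq_zero fun f _ => ?_
  have h1 : ¬ Function.Injective (fun a => v (f a)) := fun hi => by
    have h2 := card_le_card_of_injOn (s := univ) (t := univ.image v) (fun a => v (f a))
      (by intro a _; simp) hi.injOn
    simp only [card_univ, Fintype.card_fin] at h2
    omega
  simp only [Function.Injective, not_forall] at h1
  obtain ⟨a, b, hab, hne⟩ := h1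
  exact prod_eq_zero (i := (a, b)) (by simp [hne]) (by simp [hab])

theorem Fp_ne_zero {D d : ℕ} {v : Fin D → ℂ} (h : (univ.image v).card = d) :
    MvPolynomial.aeval v (Fp D d) ≠ 0 := by
  classical
  rw [Fp_aeval]
  set S := univ.image v with hS
  set W : ℂ := ∏ xy ∈ S.offDiag, (xy.1 - xy.2) with hW
  have hW0 : W ≠ 0 := prod_ne_zero_iff.2 fun xy hxy => by
    rw [mem_offDiag] at hxy
    exact sub_ne_zero.2 hxy.2.2
  have h1 : ∀ f : Fin d → Fin D, ∏ ab ∈ (univ : Finset (Fin d)).offDiag,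
      (v (f ab.1) - v (f ab.2)) = if Function.Injective (fun a => v (f a)) then W else 0 := by
    intro f
    split_ifs with hi
    · have him : univ.image (fun a => v (f a)) = S := by
        refine eq_of_subset_of_card_le (fun x hx => ?_) ?_
        · rw [mem_image] at hx
          obtain ⟨a, -, rfl⟩ := hx
          simp [hS]
        · rw [card_image_of_injective _ hi, h]
          simp
      refine prod_nbij (fun ab => (v (f ab.1), v (f ab.2))) ?_ ?_ ?_ fun _ _ => rfl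
      · intro ab hab
        rw [mem_offDiag] at hab ⊢
        exact ⟨by simp [hS], by simp [hS], fun he => hab.2.2 (hi he)⟩
      · intro ab _ ab' _ he
        simp only [Prod.mk.injEq] at he
        exact Prod.ext (hi he.1) (hi he.2)
      · intro xy hxy
        rw [mem_coe, mem_offDiag] at hxy
        rw [← him] at hxy
        obtain ⟨hx, hy, hne⟩ := hxy
        rw [mem_image] at hx hy
        obtain ⟨a, -, ha⟩ := hx
        obtain ⟨b, -, hb⟩ := hy
        refine ⟨(a, b), ?_, Prod.ext ha hb⟩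
        rw [mem_coe, mem_offDiag]
        refine ⟨mem_univ _, mem_univ _, ?_⟩
        rintro (rfl : a = b)
        exact hne (ha.symm.trans hb)
    · simp only [Function.Injective, not_forall] at hi
      obtain ⟨a, b, hab, hne⟩ := hi
      exact prod_eq_zero (i := (a, b)) (by simp [hne]) (by simp [hab])
  simp only [h1]
  rw [← sum_filter, sum_const, nsmul_eq_mul]
  refine mul_ne_zero ?_ hW0
  rw [Nat.cast_ne_zero, ← Nat.pos_iff_ne_zero, card_pos]
  have h2 : ∀ x : S, ∃ i, v i = x := fun x => by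
    obtain ⟨i, -, hi⟩ := mem_image.1 (show (x : ℂ) ∈ image v univ from x.2)
    exact ⟨i, hi⟩
  choose rep hrep using h2
  refine ⟨fun a => rep ((S.equivFinOfCardEq h).symm a), ?_⟩
  rw [mem_filter]
  refine ⟨mem_univ _, fun a b hab => ?_⟩
  simp only [hrep] at hab
  exact (S.equivFinOfCardEq h).symm.injective (Subtype.ext hab)

/-! ### Linear forms -/

theorem bad_finite {N : ℕ} {x : Fin N → ℂ} (hx : x ≠ 0) : {k : ℕ | vf k x = 0}.Finite := by
  set q : ℂ[X] := ∑ j : Fin N, C (x j) * X ^ (j : ℕ) with hq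
  have hq0 : q ≠ 0 := by
    obtain ⟨j, hj⟩ := Function.ne_iff.1 hx
    intro h0
    have h1 := congrArg (fun q : ℂ[X] => q.coeff j) h0
    simp only [hq, finsetSum_coeff, coeff_C_mul, coeff_X_pow, coeff_zero] at h1
    rw [sum_eq_single j (fun i _ hi => by
      rw [if_neg (fun h => hi (Fin.ext h.symm)), mul_zero]) (fun h => absurd (mem_univ j) h),
      if_pos rfl, mul_one] at h1
    exact hj h1
  refine ((q.finite_setOfPred_isRoot hq0).preimage
    (f := fun k : ℕ => (k : ℂ)) Nat.cast_injective.injOn).subset fun k hk => ?_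
  simp only [Set.mem_ofPred_eq, vf] at hk
  simp only [Set.mem_preimage, Set.mem_ofPred_eq, IsRoot.def, hq, eval_finsetSum, eval_mul, eval_C,
    eval_pow, eval_X]
  rw [← hk]
  exact sum_congr rfl fun j _ => mul_comm _ _

/-- all but finitely many forms separate the points of a finite set -/
theorem good {N : ℕ} (S : Finset (Fin N → ℂ)) :
    ∀ᶠ k : ℕ in atTop, Set.InjOn (vf k) (S : Set (Fin N → ℂ)) := by
  have h : ∀ x ∈ S, ∀ y ∈ S, ∀ᶠ k : ℕ in atTop, vf k x = vf k y → x = y := by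
    intro x _ y _
    by_cases hxy : x = y
    · exact Eventually.of_forall fun _ _ => hxy
    · have h1 := bad_finite (sub_ne_zero.2 hxy)
      have h2 : ∀ᶠ k : ℕ in Filter.cofinite, k ∉ {k : ℕ | vf k (x - y) = 0} :=
        h1.compl_mem_cofinite
      rw [Nat.cofinite_eq_atTop] at h2
      filter_upwards [h2] with k hk he
      exact absurd (show vf k (x - y) = 0 by rw [vf_sub, he, sub_self]) hk
  have h3 : ∀ᶠ k : ℕ in atTop, ∀ x ∈ S, ∀ y ∈ S, vf k x = vf k y → x = y :=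
    (Finset.eventually_all S).2 fun x hx => (Finset.eventually_all S).2 fun y hy => h x hx y hy
  filter_upwards [h3] with k hk x hx y hy he
  exact hk x hx y hy he

theorem diff_of_vf {N : ℕ} {g : ℂ → Fin N → ℂ} {s : ℂ}
    (h : ∀ᶠ k : ℕ in atTop, DifferentiableAt ℂ (fun w => vf k (g w)) s) :
    DifferentiableAt ℂ g s := by
  obtain ⟨k0, h⟩ := eventually_atTop.1 h
  set V : Matrix (Fin N) (Fin N) ℂ :=
    Matrix.vandermonde (fun r : Fin N => ((k0 + r : ℕ) : ℂ)) with hV
  have hdet : IsUnit V.det := by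
    rw [isUnit_iff_ne_zero, hV, Matrix.det_vandermonde_ne_zero_iff]
    intro a b hab
    have h1 : k0 + (a : ℕ) = k0 + b := Nat.cast_injective hab
    exact Fin.ext (by omega)
  have h1 : ∀ x : Fin N → ℂ, V.mulVec x = fun r : Fin N => vf (k0 + r) x := by
    intro x
    funext r
    simp [V, Matrix.mulVec, dotProduct, vf, Matrix.vandermonde_apply]
  have h2 : ∀ x : Fin N → ℂ, x = V⁻¹.mulVec (fun r : Fin N => vf (k0 + r) x) := by
    intro x
    rw [← h1, Matrix.mulVec_mulVec, Matrix.nonsing_inv_mul _ hdet, Matrix.one_mulVec]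
  rw [differentiableAt_pi]
  intro j
  have h3 : (fun w => g w j) = fun w => ∑ r : Fin N, V⁻¹ j r * vf (k0 + r) (g w) := by
    funext w
    conv_lhs => rw [h2 (g w)]
    rfl
  rw [h3]
  exact DifferentiableAt.fun_sum fun r _ => (h _ (Nat.le_add_right _ _)).const_mul _

/-- A continuous simple root of a polynomial with differentiable coefficients is differentiable. -/
theorem root_diff {n : ℕ} {R : ℂ → ℂ[X]} {h : ℂ → ℂ} {s₀ : ℂ} (hdeg : ∀ s, (R s).natDegree < n)
    (hR : ∀ j, DifferentiableAt ℂ (fun s => (R s).coeff j) s₀) (hh : ContinuousAt h s₀)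
    (h0 : ∀ᶠ s in 𝓝 s₀, (R s).eval (h s) = 0)
    (h1 : (derivative (R s₀)).eval (h s₀) ≠ 0) : DifferentiableAt ℂ h s₀ := by
  set A : ℂ → ℂ := fun s => ∑ j ∈ Finset.range n, (R s).coeff j *
    ∑ a ∈ Finset.range j, h s ^ a * h s₀ ^ (j - 1 - a) with hA
  set Φ : ℂ → ℂ := fun s => (R s).eval (h s₀) with hΦ
  have hAc : ContinuousAt A s₀ := by
    refine tendsto_finsetSum _ fun j _ => ?_
    refine (hR j).continuousAt.tendsto.mul (tendsto_finsetSum _ fun a _ => ?_)
    exact (hh.tendsto.pow a).mul_const _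
  have hA0 : A s₀ = (derivative (R s₀)).eval (h s₀) := by
    rw [derivative_eval, sum_over_range' _ (by simp) n (hdeg s₀)]
    refine sum_congr rfl fun j _ => ?_
    have h2 : ∀ a ∈ Finset.range j, h s₀ ^ a * h s₀ ^ (j - 1 - a) = h s₀ ^ (j - 1) := by
      intro a ha
      rw [mem_range] at ha
      rw [← pow_add]
      congr 1
      omega
    rw [sum_congr rfl h2, sum_const, card_range, nsmul_eq_mul]
    ring
  have hsub : ∀ s, (R s).eval (h s) - Φ s = A s * (h s - h s₀) := by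
    intro s
    rw [hΦ, hA]
    simp only
    rw [eval_eq_sum_range' (hdeg s), eval_eq_sum_range' (hdeg s), ← sum_sub_distrib, sum_mul]
    refine sum_congr rfl fun j _ => ?_
    rw [mul_assoc, (Commute.all (h s) (h s₀)).geom_sum₂_mul, mul_sub]
  have hΦd : DifferentiableAt ℂ Φ s₀ := by
    have h2 : Φ = fun s => ∑ j ∈ Finset.range n, (R s).coeff j * h s₀ ^ j := by
      funext s
      exact eval_eq_sum_range' (hdeg s) _
    rw [h2]
    exact DifferentiableAt.fun_sum fun j _ => (hR j).mul_const _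
  have hΦ0 : Φ s₀ = 0 := h0.self_of_nhds
  have hA1 : A s₀ ≠ 0 := by rwa [hA0]
  have hev : ∀ᶠ s in 𝓝 s₀, h s = h s₀ - Φ s * (A s)⁻¹ := by
    filter_upwards [h0, hAc.eventually_ne hA1] with s h2 h3
    have h4 := hsub s
    rw [h2, zero_sub] at h4
    have h5 : h s - h s₀ = -(Φ s * (A s)⁻¹) := by
      field_simp
      linear_combination -h4
    linear_combination h5
  have hd : HasDerivAt (fun s => Φ s * (A s)⁻¹) (deriv Φ s₀ * (A s₀)⁻¹) s₀ := by
    rw [hasDerivAt_iff_tendsto_slope]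
    have h2 := (hasDerivAt_iff_tendsto_slope.1 hΦd.hasDerivAt).mul
      ((hAc.inv₀ hA1).tendsto.mono_left (nhdsWithin_le_nhds (s := {s₀}ᶜ)))
    refine h2.congr fun s => ?_
    simp only [slope_def_field, hΦ0, zero_mul, sub_zero, Pi.inv_apply]
    ring
  exact ((hd.differentiableAt.const_sub (h s₀)).congr_of_eventuallyEq hev)

theorem rootMult {D : ℕ} (φ : Fin D → ℂ) (t : ℂ) :
    (∏ i, (X - C (φ i)) : ℂ[X]).rootMultiplicity t = (univ.filter fun i => φ i = t).card := by
  classical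
  have h1 : (∏ i, (X - C (φ i)) : ℂ[X]) = ((univ.val.map φ).map fun a => X - C a).prod := by
    rw [Multiset.map_map]
    rfl
  rw [← count_roots, h1, roots_multiset_prod_X_sub_C, Multiset.count_map]
  show Multiset.card _ = Multiset.card _
  congr 1
  exact Multiset.filter_congr fun i _ => eq_comm

theorem exists_pos_le {ι : Type} [Finite ι] (f : ι → ℝ) (hf : ∀ i, 0 < f i) :
    ∃ e > 0, ∀ i, e ≤ f i := by
  rcases isEmpty_or_nonempty ι with h | h
  · exact ⟨1, one_pos, fun i => (h.false i).elim⟩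
  · obtain ⟨i₀, hi₀⟩ := Finite.exists_min f
    exact ⟨f i₀, hf i₀, hi₀⟩

theorem clusters {D N : ℕ} {x y : Fin D → Fin N → ℂ} {σ : Equiv.Perm (Fin D)} {r₀ : ℝ}
    (hr : ∀ i i', x i ≠ x i' → r₀ ≤ dist (x i) (x i')) (hσ : ∀ i, dist (y (σ i)) (x i) < r₀ / 2)
    (hc : (univ.image y).card ≤ (univ.image x).card) {i i' : Fin D} (h : x i = x i') :
    y (σ i) = y (σ i') := by
  classical
  set f : (Fin N → ℂ) → (Fin N → ℂ) := fun q => if h : ∃ i, y (σ i) = q then x h.choose else 0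
    with hf
  have hf1 : ∀ i, f (y (σ i)) = x i := by
    intro i
    have h1 : ∃ i', y (σ i') = y (σ i) := ⟨i, rfl⟩
    rw [hf]
    simp only
    rw [dif_pos h1]
    by_contra hne
    have h2 := hr _ _ hne
    have h3 := hσ h1.choose
    have h4 := hσ i
    rw [h1.choose_spec] at h3
    have h5 := dist_triangle_left (x h1.choose) (x i) (y (σ i))
    linarith
  have h2 : (univ.image fun i => y (σ i)) = univ.image y := by
    ext q
    simp only [mem_image, mem_univ, true_and]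
    exact ⟨fun ⟨i, hi⟩ => ⟨σ i, hi⟩, fun ⟨i, hi⟩ => ⟨σ.symm i, by simpa using hi⟩⟩
  have h3 : (univ.image fun i => y (σ i)).image f = univ.image x := by
    rw [image_image]
    exact image_congr fun i _ => hf1 i
  have h4 : Set.InjOn f (univ.image fun i => y (σ i) : Finset (Fin N → ℂ)) := by
    refine injOn_of_card_image_eq (le_antisymm card_image_le ?_)
    rw [h3, h2]
    exact hc
  exact h4 (by simp) (by simp) (by rw [hf1, hf1, h])

section

variable {D N : ℕ} {Z : ℂ → Fin D → Fin N → ℂ}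

theorem continuous_vf {N : ℕ} (k : ℕ) : Continuous (vf k : (Fin N → ℂ) → ℂ) := by
  unfold vf
  fun_prop

/-- local sections near a point where the number of different points is locally constant -/
theorem local_sections
    (hZ : ∀ (k : ℕ) (T : ℂ), Differentiable ℂ fun s => ∏ i, (T - vf k (Z s i)))
    (hB : ∀ R : ℝ, ∃ B : ℝ, ∀ s : ℂ, ‖s‖ ≤ R → ∀ i j, ‖Z s i j‖ ≤ B) {s : ℂ}
    (hs : ∀ᶠ s' in 𝓝 s, (univ.image (Z s')).card ≤ (univ.image (Z s)).card) :
    ∃ (r : ℝ) (g : Fin D → ℂ → Fin N → ℂ), 0 < r ∧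
      (∀ i, DifferentiableOn ℂ (g i) (Metric.ball s r)) ∧
      ∀ s' ∈ Metric.ball s r, ∃ σ : Equiv.Perm (Fin D), ∀ i, Z s' (σ i) = g i s' := by
  classical
  -- separation
  obtain ⟨r₀, hr₀, hr⟩ : ∃ r₀ > 0, ∀ i i', Z s i ≠ Z s i' → r₀ ≤ dist (Z s i) (Z s i') := by
    obtain ⟨e, he, h⟩ := exists_pos_le
      (fun p : Fin D × Fin D => if Z s p.1 = Z s p.2 then 1 else dist (Z s p.1) (Z s p.2))
      (fun p => by
        split_ifs with h
        · exact one_pos
        · exact dist_pos.2 h)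
    refine ⟨e, he, fun i i' hne => ?_⟩
    have := h (i, i')
    simpa [hne] using this
  have hcont : ∀ s, ∀ ε > 0, ∀ᶠ s' in 𝓝 s, ∃ σ : Equiv.Perm (Fin D),
      ∀ i, dist (Z s' (σ i)) (Z s i) ≤ ε := by
    intro s ε hε
    filter_upwards [cont hZ hB s hε] with s' ⟨σ, hσ⟩
    refine ⟨σ, fun i => (dist_pi_le_iff hε.le).2 fun j => ?_⟩
    rw [dist_eq_norm]
    exact hσ i j
  obtain ⟨r, hr0, hball⟩ := Metric.eventually_nhds_iff_ball.1
    ((hcont s (r₀ / 4) (by positivity)).and hs)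
  have h1 : ∀ s' ∈ Metric.ball s r, ∃ σ : Equiv.Perm (Fin D),
      ∀ i, dist (Z s' (σ i)) (Z s i) ≤ r₀ / 4 := fun s' hs' => (hball s' hs').1
  choose! σ hσ using h1
  set g : Fin D → ℂ → Fin N → ℂ := fun i s' => Z s' (σ s' i) with hg
  have hclus : ∀ s' ∈ Metric.ball s r, ∀ i i', Z s i = Z s i' → g i s' = g i' s' :=
    fun s' hs' i i' h => clusters hr (fun i => (hσ s' hs' i).trans_lt (by linarith))
      (hball s' hs').2 h
  have hsep : ∀ s' ∈ Metric.ball s r, ∀ i i', Z s i ≠ Z s i' → g i s' ≠ g i' s' := by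
    intro s' hs' i i' hne he
    have h2 := hr i i' hne
    have h3 := hσ s' hs' i
    have h4 := hσ s' hs' i'
    have h5 : Z s' (σ s' i) = Z s' (σ s' i') := he
    rw [h5] at h3
    have h6 := dist_triangle_left (Z s i) (Z s i') (Z s' (σ s' i'))
    linarith
  have huniq : ∀ s' ∈ Metric.ball s r, ∀ i l, dist (Z s' l) (Z s i) ≤ r₀ / 3 →
      Z s' l = g i s' := by
    intro s' hs' i l hl
    have h2 := hσ s' hs' ((σ s').symm l)
    rw [Equiv.apply_symm_apply] at h2
    have h3 : Z s i = Z s ((σ s').symm l) := by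
      by_contra hne
      have h4 := hr _ _ hne
      have h5 := dist_triangle_left (Z s i) (Z s ((σ s').symm l)) (Z s' l)
      linarith
    have h4 := hclus s' hs' _ _ h3
    rw [h4, hg]
    simp
  have hgc : ∀ i, ∀ s' ∈ Metric.ball s r, ContinuousAt (g i) s' := by
    intro i s' hs'
    rw [Metric.continuousAt_iff']
    intro ε hε
    filter_upwards [hcont s' (min (ε / 2) (r₀ / 12)) (by positivity),
      Metric.isOpen_ball.mem_nhds hs'] with s'' ⟨τ, hτ⟩ hs''
    have h2 := hτ (σ s' i)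
    have h3 : Z s'' (τ (σ s' i)) = g i s'' := by
      refine huniq s'' hs'' i _ ?_
      have h4 := hσ s' hs' i
      have h5 := dist_triangle (Z s'' (τ (σ s' i))) (Z s' (σ s' i)) (Z s i)
      have h6 := h2.trans (min_le_right _ _)
      linarith
    rw [h3] at h2
    exact (h2.trans (min_le_left _ _)).trans_lt (by linarith)
  refine ⟨r, g, hr0, fun i s' hs' => ?_, fun s' hs' => ⟨σ s', fun i => rfl⟩⟩
  refine (diff_of_vf ?_).differentiableWithinAt
  filter_upwards [good (univ.image (Z s'))] with k hk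
  set m := (univ.filter fun i' => Z s i' = Z s i).card with hm
  have hm1 : 1 ≤ m := card_pos.2 ⟨i, by simp⟩
  have hprod : ∀ w ∈ Metric.ball s r, (∏ j, (X - C (vf k (Z w j))) : ℂ[X]) =
      ∏ j, (X - C (vf k (g j w))) := fun w _ =>
    (Equiv.prod_comp (σ w) fun j => (X - C (vf k (Z w j)) : ℂ[X])).symm
  have hmult : ∀ᶠ w in 𝓝 s', w ∈ Metric.ball s r ∧
      (∏ j, (X - C (vf k (Z w j))) : ℂ[X]).rootMultiplicity (vf k (g i w)) = m := by
    have h2 : ∀ᶠ w in 𝓝 s', ∀ i', Z s i' ≠ Z s i → vf k (g i' w) ≠ vf k (g i w) := by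
      refine eventually_all.2 fun i' => ?_
      by_cases hi' : Z s i' = Z s i
      · exact Eventually.of_forall fun w h => absurd hi' h
      · have h3 : vf k (g i' s') ≠ vf k (g i s') := fun he =>
          hsep s' hs' i' i hi' (hk (by simp [hg]) (by simp [hg]) he)
        have h4 : ContinuousAt (fun w => vf k (g i' w) - vf k (g i w)) s' :=
          ((continuous_vf k).continuousAt.comp (hgc i' s' hs')).sub
            ((continuous_vf k).continuousAt.comp (hgc i s' hs'))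
        filter_upwards [h4.eventually_ne (sub_ne_zero.2 h3)] with w hw _
        exact sub_ne_zero.1 hw
    filter_upwards [h2, Metric.isOpen_ball.mem_nhds hs'] with w hw hwb
    refine ⟨hwb, ?_⟩
    rw [hprod w hwb, rootMult, hm]
    congr 1
    refine filter_congr fun i' _ => ⟨fun h => ?_, fun h => ?_⟩
    · by_contra hne
      exact hw i' hne h
    · rw [hclus w hwb i' i h]
  refine root_diff (n := D + 1)
    (R := fun w => derivative^[m - 1] (∏ j, (X - C (vf k (Z w j))))) ?_ ?_ ?_ ?_ ?_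
  · intro w
    have h2 : (∏ j, (X - C (vf k (Z w j))) : ℂ[X]).natDegree = D :=
      natDegree_eq_of_degree_eq_some (degree_prod_X _)
    have h3 := natDegree_iterate_derivative (∏ j, (X - C (vf k (Z w j))) : ℂ[X]) (m - 1)
    omega
  · intro j
    simp only [coeff_iterate_derivative]
    refine DifferentiableAt.const_smul ?_ _
    refine coeff_diff (n := D + 1) (fun w => ?_) (fun T => ?_) _ s'
    · rw [degree_prod_X]
      exact_mod_cast Nat.lt_succ_self D
    · simpa [eval_prod] using hZ k T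
  · exact (continuous_vf k).continuousAt.comp (hgc i s' hs')
  · filter_upwards [hmult] with w hw
    exact isRoot_iterate_derivative_of_lt_rootMultiplicity (by rw [hw.2]; omega)
  · have h2 := hmult.self_of_nhds.2
    have h3 := eval_iterate_derivative_rootMultiplicity
      (p := (∏ j, (X - C (vf k (Z s' j))) : ℂ[X])) (t := vf k (g i s'))
    have hne : (∏ j, (X - C (vf k (Z s' j))) : ℂ[X]) ≠ 0 :=
      (monic_prod_of_monic _ _ fun j _ => monic_X_sub_C _).ne_zero
    have h4 := eval_divByMonic_pow_rootMultiplicity_ne_zero (vf k (g i s')) hne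
    rw [h2] at h3 h4
    have h5 : derivative (derivative^[m - 1] (∏ j, (X - C (vf k (Z s' j))) : ℂ[X])) =
        derivative^[m] (∏ j, (X - C (vf k (Z s' j)))) := by
      rw [← Function.iterate_succ_apply' derivative]
      congr 1
      omega
    rw [h5, h3, nsmul_eq_mul]
    exact mul_ne_zero (Nat.cast_ne_zero.2 (Nat.factorial_ne_zero _)) h4

/-- holomorphic sections off a closed discrete set -/
theorem sections (hZ : ∀ (k : ℕ) (T : ℂ), Differentiable ℂ fun s => ∏ i, (T - vf k (Z s i)))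
    (hB : ∀ R : ℝ, ∃ B : ℝ, ∀ s : ℂ, ‖s‖ ≤ R → ∀ i j, ‖Z s i j‖ ≤ B) :
    ∃ E : Set ℂ, (∀ s, ∃ r > 0, ∀ s' ∈ E, s' ≠ s → r ≤ ‖s' - s‖) ∧ ∀ s ∉ E,
      ∃ (r : ℝ) (g : Fin D → ℂ → Fin N → ℂ), 0 < r ∧
        (∀ i, DifferentiableOn ℂ (g i) (Metric.ball s r)) ∧
        ∀ s' ∈ Metric.ball s r, ∃ σ : Equiv.Perm (Fin D), ∀ i, Z s' (σ i) = g i s' := by
  classical
  obtain ⟨s₁, hs₁⟩ : ∃ s₁, ∀ s, (univ.image (Z s)).card ≤ (univ.image (Z s₁)).card := by
    by_contra! hc
    have h2 : ∀ n : ℕ, ∃ s, n ≤ (univ.image (Z s)).card := by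
      intro n
      induction n with
      | zero => exact ⟨0, Nat.zero_le _⟩
      | succ n ih =>
        obtain ⟨s, hs⟩ := ih
        obtain ⟨s', hs'⟩ := hc s
        exact ⟨s', by omega⟩
    obtain ⟨s, hs⟩ := h2 (D + 1)
    have h3 : (univ.image (Z s)).card ≤ D := by
      have := card_image_le (s := (univ : Finset (Fin D))) (f := Z s)
      simpa using this
    omega
  obtain ⟨k, hk⟩ := (good (univ.image (Z s₁))).exists
  set d := (univ.image (Z s₁)).card with hd
  set F : ℂ → ℂ := fun s => MvPolynomial.aeval (fun i => vf k (Z s i)) (Fp D d) with hF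
  have hFd : Differentiable ℂ F := symm_diff (hZ k) (Fp_symm D d)
  have himg : ∀ s, (univ.image fun i => vf k (Z s i)) = (univ.image (Z s)).image (vf k) :=
    fun s => by
      rw [image_image]
      rfl
  have hF1 : F s₁ ≠ 0 := Fp_ne_zero (by
    rw [himg, card_image_of_injOn hk])
  have hcard : ∀ s, F s ≠ 0 → (univ.image (Z s)).card = d := by
    intro s hs
    refine le_antisymm (hs₁ s) ?_
    by_contra! hlt
    refine hs (Fp_zero ?_)
    rw [himg]
    exact card_image_le.trans_lt hlt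
  refine ⟨{s | F s = 0}, fun s => ?_, fun s hs => ?_⟩
  · have hA : AnalyticOnNhd ℂ F Set.univ := fun z _ => hFd.analyticAt z
    rcases (hA s trivial).eventually_eq_zero_or_eventually_ne_zero with h | h
    · exact absurd (hA.eqOn_zero_of_preconnected_of_eventuallyEq_zero isPreconnected_univ
        trivial h (Set.mem_univ s₁)) hF1
    · rw [eventually_nhdsWithin_iff, Metric.eventually_nhds_iff_ball] at h
      obtain ⟨r, hr, h⟩ := h
      refine ⟨r, hr, fun s' hs' hne => ?_⟩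
      by_contra! hlt
      exact h s' (mem_ball_iff_norm.2 hlt) hne hs'
  · refine local_sections hZ hB ?_
    filter_upwards [hFd.continuous.continuousAt.eventually_ne hs] with s' _
    rw [hcard s hs]
    exact hs₁ s'

end

end Sheets

/-- The statement of the module. -/
theorem sheets (D N : ℕ) : ∃ (m : ℕ) (C α : ℝ), 0 < C ∧ 0 < α ∧ α ≤ 1 ∧
    ∀ Z : ℂ → Fin D → Fin N → ℂ,
      (∀ (k : ℕ) (T : ℂ), Differentiable ℂ fun s => ∏ i, (T - vf k (Z s i))) →
      (∀ R : ℝ, ∃ B : ℝ, ∀ s : ℂ, ‖s‖ ≤ R → ∀ i j, ‖Z s i j‖ ≤ B) →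
      (∀ s, ∀ ε > 0, ∀ᶠ s' in 𝓝 s, ∃ σ : Equiv.Perm (Fin D),
        ∀ i j, ‖Z s' (σ i) j - Z s i j‖ ≤ ε) ∧
      (∀ ρ : ℝ, 1 ≤ ρ → (∀ s : ℂ, ‖s‖ ≤ 3 → ∀ i j, ‖Z s i j‖ ≤ ρ) →
        ∀ s s' : ℂ, ‖s‖ ≤ 2 → ‖s'‖ ≤ 2 → ∃ σ : Equiv.Perm (Fin D),
          ∀ i j, ‖Z s (σ i) j - Z s' i j‖ ≤ C * ρ ^ m * ‖s - s'‖ ^ α) ∧
      ∃ E : Set ℂ, (∀ s, ∃ r > 0, ∀ s' ∈ E, s' ≠ s → r ≤ ‖s' - s‖) ∧ ∀ s ∉ E,
        ∃ (r : ℝ) (g : Fin D → ℂ → Fin N → ℂ), 0 < r ∧
          (∀ i, DifferentiableOn ℂ (g i) (Metric.ball s r)) ∧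
          ∀ s' ∈ Metric.ball s r, ∃ σ : Equiv.Perm (Fin D), ∀ i, Z s' (σ i) = g i s' := by
  obtain ⟨m, C, α, hC, hα, hα1, h⟩ := Sheets.holder D N
  exact ⟨m, C, α, hC, hα, hα1, fun Z hZ hB =>
    ⟨fun s ε hε => Sheets.cont hZ hB s hε, h Z hZ, Sheets.sections hZ hB⟩⟩

end Pool.Agent.KRFY
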